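import Pool.Agent.H85.BC.Targets
import Pool.Agent.H85.BC.Basic

/-!
# APX: failure of the uniform form gives almost commuting unitaries (`MP_0e7a83_an`)
-/

set_option autoImplicit false

open scoped InnerProductSpace Topology
open Filter

namespace Pool.Agent.H11.BCG

open Pool.Agent.H85.BC

variable {H : Type} [NormedAddCommGroup H] [InnerProductSpace ℂ H] [CompleteSpace H]

theorem one_ne_zero_of {N : VonNeumannAlgebra H} {ξ : H} (hξ : IsTraceVector N ξ) :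
    (1 : H →L[ℂ] H) ≠ 0 := by
  intro h
  have h1 : (1 : H →L[ℂ] H) ξ = (0 : H →L[ℂ] H) ξ := by rw [h]
  have h2 : ξ = 0 := h1
  have h3 := hξ.norm_eq
  rw [h2, norm_zero] at h3
  exact zero_ne_one h3

theorem irr_one {N : VonNeumannAlgebra H} {ξ : H} (hξ : IsTraceVector N ξ) (hN : IsFactor N) :
    Irr N (N : Set (H →L[ℂ] H)) 1 where
  sub := fun _ hy => hy
  star_mem := fun _ hy => star_mem (S := VonNeumannAlgebra H) hy
  mem := one_mem N
  proj := IsStarProjection.one _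
  ne_zero := one_ne_zero_of hξ
  comm := fun y _ => by rw [one_mul, mul_one]
  irr := fun x hx _ h => hN x hx fun y hy => h y hy

theorem pf_APX (hGEN : T_GEN H) : T_APX H := by
  classical
  intro N ξ hξ hN hUG F hF ε hε
  unfold UG at hUG
  push Not at hUG
  obtain ⟨ε₀, hε₀, hU⟩ := hUG
  have hex : ∀ i : Finset (H →L[ℂ] H) × ℕ, ∃ x ∈ N, ‖x‖ ≤ 1 ∧
      (∀ y ∈ i.1, y ∈ N → ‖(x * y - y * x) ξ‖ < 1 / ((i.2 : ℝ) + 1)) ∧
      ε₀ ≤ ‖x ξ - tr ξ x • ξ‖ := by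
    intro i
    obtain ⟨x, hx, hx1, hx2, hx3⟩ := hU (i.1.filter fun y => y ∈ N)
      (fun y hy => (Finset.mem_filter.mp hy).2) (1 / ((i.2 : ℝ) + 1)) (by positivity)
    exact ⟨x, hx, hx1, fun y hy hyN => hx2 y (Finset.mem_filter.mpr ⟨hy, hyN⟩), hx3⟩
  choose x hxN hx1 hxc hxe using hex
  have hT1 : ∀ y ∈ (N : Set (H →L[ℂ] H)), Tendsto (fun i => ‖(x i * y - y * x i) ξ‖)
      (Ultrafilter.of (atTop : Filter (Finset (H →L[ℂ] H) × ℕ)) :
        Filter (Finset (H →L[ℂ] H) × ℕ)) (𝓝 0) := by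
    intro y hy
    refine Tendsto.mono_left ?_ (Ultrafilter.of_le atTop)
    rw [Metric.tendsto_atTop]
    intro r hr
    obtain ⟨n, hn⟩ := exists_nat_one_div_lt hr
    refine ⟨({y}, n), fun i hi => ?_⟩
    have h1 : y ∈ i.1 := hi.1 (Finset.mem_singleton_self y)
    have h2 : n ≤ i.2 := hi.2
    rw [dist_zero_right, norm_norm]
    refine (hxc i y h1 hy).trans_le (le_trans ?_ hn.le)
    refine one_div_le_one_div_of_le (by positivity) ?_
    have : (n : ℝ) ≤ (i.2 : ℝ) := by exact_mod_cast h2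
    linarith
  have hT2 : ¬ Tendsto (fun i => ‖(x i - (tr ξ (x i) / tr ξ 1) • (1 : H →L[ℂ] H)) ξ‖)
      (Ultrafilter.of (atTop : Filter (Finset (H →L[ℂ] H) × ℕ)) :
        Filter (Finset (H →L[ℂ] H) × ℕ)) (𝓝 0) := by
    intro hlim
    have h1 : ∀ i, ε₀ ≤ ‖(x i - (tr ξ (x i) / tr ξ 1) • (1 : H →L[ℂ] H)) ξ‖ := by
      intro i
      have h2 : (x i - (tr ξ (x i) / tr ξ 1) • (1 : H →L[ℂ] H)) ξ =
          x i ξ - tr ξ (x i) • ξ := by
        rw [hξ.tr_one, div_one]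
        rfl
      rw [h2]
      exact hxe i
    have h3 := ge_of_tendsto hlim (Eventually.of_forall h1)
    linarith
  obtain ⟨W, hWN, h1, h2, -, h4, h5⟩ := hGEN N ξ hξ (N : Set (H →L[ℂ] H)) 1 (irr_one hξ hN)
    (Finset (H →L[ℂ] H) × ℕ) (Ultrafilter.of atTop) x hxN
    (fun i => by rw [one_mul, mul_one]) hx1 hT1 hT2 F hF ε hε
  refine ⟨W, hWN, h1, h2, ?_, h5⟩
  rwa [mul_one] at h4

end Pool.Agent.H11.BCG
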