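import Pool.Agent.H85.BC.Targets
import Pool.Agent.H85.BC.Basic

/-!
# PI: a nonzero element gives a nonzero partial isometry (`MP_0e7a83_an`)
-/

set_option autoImplicit false

open scoped InnerProductSpace Topology
open Filter

namespace Pool.Agent.H11.BCG

open Pool.Agent.H85.BC

variable {H : Type} [NormedAddCommGroup H] [InnerProductSpace ℂ H] [CompleteSpace H]

/-- An inverse square root of a strictly positive operator. -/
theorem exists_inv_sqrt (h : H →L[ℂ] H) (hsa : IsSelfAdjoint h) {c : ℝ} (hc : 0 < c)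
    (hpos : ∀ ζ : H, c * ‖ζ‖ ^ 2 ≤ (inner ℂ ζ (h ζ) : ℂ).re) :
    ∃ k : H →L[ℂ] H, star k = k ∧ k * k * h = 1 ∧
      ∀ b : H →L[ℂ] H, b * h = h * b → b * k = k * b := by
  have hle : algebraMap ℝ (H →L[ℂ] H) c ≤ h := by
    rw [← sub_nonneg, ContinuousLinearMap.nonneg_iff_isPositive]
    refine ContinuousLinearMap.isPositive_def'.mpr ⟨?_, fun ζ => ?_⟩
    · exact hsa.sub (IsSelfAdjoint.algebraMap (H →L[ℂ] H) (IsSelfAdjoint.all c))
    · rw [ContinuousLinearMap.reApplyInnerSelf_apply]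
      have h1 : (h - algebraMap ℝ (H →L[ℂ] H) c) ζ = h ζ - (c : ℂ) • ζ := by
        rw [Algebra.algebraMap_eq_smul_one]
        simp
      rw [h1, inner_sub_left, inner_smul_left]
      have h2 := hpos ζ
      have h3 : (inner ℂ (h ζ) ζ : ℂ).re = (inner ℂ ζ (h ζ) : ℂ).re := by
        rw [← inner_conj_symm, Complex.conj_re]
      have h4 : (inner ℂ ζ ζ : ℂ).re = ‖ζ‖ ^ 2 := by
        rw [inner_self_eq_norm_sq_to_K]
        norm_cast
      simp only [map_sub, Complex.conj_ofReal, RCLike.re_to_complex, Complex.re_ofReal_mul]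
      rw [h3, h4]
      linarith
  have hsp : ∀ t ∈ spectrum ℝ h, c ≤ t :=
    (algebraMap_le_iff_le_spectrum (r := c) (a := h) hsa).mp hle
  have hcont : ContinuousOn (fun t : ℝ => (Real.sqrt t)⁻¹) (spectrum ℝ h) := by
    refine ContinuousOn.inv₀ Real.continuous_sqrt.continuousOn fun t ht => ?_
    exact (Real.sqrt_pos.mpr (hc.trans_le (hsp t ht))).ne'
  refine ⟨cfc (fun t : ℝ => (Real.sqrt t)⁻¹) h, ?_, ?_, ?_⟩
  · exact (cfc_predicate (fun t : ℝ => (Real.sqrt t)⁻¹) h).star_eq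
  · have h1 : cfc (fun t : ℝ => (Real.sqrt t)⁻¹ * (Real.sqrt t)⁻¹) h =
        cfc (fun t : ℝ => (Real.sqrt t)⁻¹) h * cfc (fun t : ℝ => (Real.sqrt t)⁻¹) h :=
      cfc_mul _ _ h hcont hcont
    have h2 : cfc (fun t : ℝ => (Real.sqrt t)⁻¹ * (Real.sqrt t)⁻¹ * t) h =
        cfc (fun t : ℝ => (Real.sqrt t)⁻¹ * (Real.sqrt t)⁻¹) h * cfc (fun t : ℝ => t) h :=
      cfc_mul _ _ h (hcont.mul hcont) continuousOn_id
    rw [cfc_id' ℝ h, h1] at h2
    rw [← h2]
    have h3 : cfc (fun t : ℝ => (Real.sqrt t)⁻¹ * (Real.sqrt t)⁻¹ * t) h =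
        cfc (fun _ : ℝ => (1 : ℝ)) h := by
      refine cfc_congr fun t ht => ?_
      have ht0 : 0 < t := hc.trans_le (hsp t ht)
      have h4 := Real.mul_self_sqrt ht0.le
      have h5 : Real.sqrt t ≠ 0 := (Real.sqrt_pos.mpr ht0).ne'
      calc (Real.sqrt t)⁻¹ * (Real.sqrt t)⁻¹ * t =
          (Real.sqrt t)⁻¹ * (Real.sqrt t)⁻¹ * (Real.sqrt t * Real.sqrt t) := by rw [h4]
        _ = 1 := by field_simp
    rw [h3, cfc_const_one ℝ h]
  · intro b hb
    exact (Commute.cfc_real (a := h) (b := b) (show h * b = b * h from hb.symm) _).symm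

theorem pf_PI (hSP : T_SP H) : T_PI H := by
  intro M x hx hx0
  obtain ⟨a, ha⟩ : ∃ a : H →L[ℂ] H, a = star x * x := ⟨_, rfl⟩
  have haM : a ∈ M := ha ▸ mul_mem (star_mem hx) hx
  have hasa : IsSelfAdjoint a := ha ▸ IsSelfAdjoint.star_mul_self x
  have haz : ∀ ζ : H, (inner ℂ ζ (a ζ) : ℂ).re = ‖x ζ‖ ^ 2 := by
    intro ζ
    have h1 : a ζ = star x (x ζ) := by rw [ha]; rfl
    rw [h1, inner_star_right, inner_self_eq_norm_sq_to_K]
    norm_cast
  have hxn : 0 < ‖x‖ := norm_pos_iff.mpr hx0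
  obtain ⟨E, hEM, hE, hEc, hE1, hE2⟩ := hSP M a haM hasa (‖x‖ ^ 2 / 2)
  have hs : 0 < ‖x‖ ^ 2 / 2 := by positivity
  have hEE : E * E = E := hE.isIdempotentElem.eq
  have hEs : star E = E := hE.isSelfAdjoint.star_eq
  have hEapp : ∀ ζ : H, E (E ζ) = E ζ := fun ζ => by
    rw [← mul_app, hEE]
  have hE0 : E ≠ 0 := by
    intro h0
    have h1 : ∀ ζ : H, ‖x ζ‖ ≤ (‖x‖ / Real.sqrt 2) * ‖ζ‖ := by
      intro ζ
      have h2 := hE2 ζ (by rw [h0]; rfl)
      rw [haz] at h2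
      have h3 : ((‖x‖ / Real.sqrt 2) * ‖ζ‖) ^ 2 = ‖x‖ ^ 2 / 2 * ‖ζ‖ ^ 2 := by
        rw [mul_pow, div_pow, Real.sq_sqrt (by norm_num)]
      rw [← h3] at h2
      exact le_of_sq_le_sq h2 (by positivity)
    have h4 : ‖x‖ ≤ ‖x‖ / Real.sqrt 2 :=
      ContinuousLinearMap.opNorm_le_bound _ (by positivity) h1
    rw [le_div_iff₀ (by positivity)] at h4
    have h5 : (1 : ℝ) < Real.sqrt 2 := Real.one_lt_sqrt_two
    nlinarith
  have haE : a * E = E * a := hEc a rfl
  obtain ⟨h, hh⟩ : ∃ h : H →L[ℂ] H, h = a * E + (1 - E) := ⟨_, rfl⟩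
  have hhM : h ∈ M := hh ▸ add_mem (mul_mem haM hEM) (sub_mem (one_mem _) hEM)
  have hhsa : IsSelfAdjoint h := by
    rw [isSelfAdjoint_iff, hh, star_add, star_sub, star_one, star_mul, hEs, hasa.star_eq, haE]
  have hhE : h * E = a * E := by
    rw [hh, add_mul, sub_mul, one_mul, hEE, sub_self, add_zero, mul_assoc, hEE]
  have hEh : E * h = h * E := by
    rw [hhE, hh, mul_add, mul_sub, mul_one, hEE, sub_self, add_zero, ← mul_assoc, ← haE,
      mul_assoc, hEE]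
  have hc : 0 < min (‖x‖ ^ 2 / 2) 1 := lt_min hs one_pos
  have hpos : ∀ ζ : H, min (‖x‖ ^ 2 / 2) 1 * ‖ζ‖ ^ 2 ≤ (inner ℂ ζ (h ζ) : ℂ).re := by
    intro ζ
    have h1 : h ζ = E (a (E ζ)) + (ζ - E ζ) := by
      have h2 : h = E * a * E + (1 - E) := by
        rw [hh, ← haE, mul_assoc, hEE]
      rw [h2]
      rfl
    have h3 : (inner ℂ ζ (E (a (E ζ))) : ℂ) = inner ℂ (E ζ) (a (E ζ)) := by
      rw [← inner_star_left, hEs]
    have h4 : (inner ℂ ζ (ζ - E ζ) : ℂ) = inner ℂ (ζ - E ζ) (ζ - E ζ) := by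
      have h5 : (inner ℂ (E ζ) (ζ - E ζ) : ℂ) = 0 := by
        rw [inner_sub_right]
        have h6 : (inner ℂ (E ζ) (E ζ) : ℂ) = inner ℂ (E ζ) ζ := by
          conv_lhs => rw [← inner_star_left, hEs, hEapp]
        rw [h6, sub_self]
      conv_rhs => rw [inner_sub_left, h5, sub_zero]
    have h7 : ‖ζ‖ ^ 2 = ‖E ζ‖ ^ 2 + ‖ζ - E ζ‖ ^ 2 := by
      have h8 : (inner ℂ (E ζ) (ζ - E ζ) : ℂ) = 0 := by
        rw [inner_sub_right]
        have h6 : (inner ℂ (E ζ) (E ζ) : ℂ) = inner ℂ (E ζ) ζ := by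
          conv_lhs => rw [← inner_star_left, hEs, hEapp]
        rw [h6, sub_self]
      have h9 := norm_add_sq_eq_norm_sq_add_norm_sq_of_inner_eq_zero (E ζ) (ζ - E ζ) h8
      have h10 : E ζ + (ζ - E ζ) = ζ := by abel
      rw [h10] at h9
      nlinarith [h9]
    rw [h1, inner_add_right, h3, h4, Complex.add_re]
    have h11 := hE1 (E ζ) (hEapp ζ)
    have h12 : (inner ℂ (ζ - E ζ) (ζ - E ζ) : ℂ).re = ‖ζ - E ζ‖ ^ 2 := by
      rw [inner_self_eq_norm_sq_to_K]
      norm_cast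
    rw [h12, h7]
    have h13 : min (‖x‖ ^ 2 / 2) 1 ≤ ‖x‖ ^ 2 / 2 := min_le_left _ _
    have h14 : min (‖x‖ ^ 2 / 2) 1 ≤ 1 := min_le_right _ _
    nlinarith [sq_nonneg ‖E ζ‖, sq_nonneg ‖ζ - E ζ‖, mul_le_mul_of_nonneg_right h13
      (sq_nonneg ‖E ζ‖), mul_le_mul_of_nonneg_right h14 (sq_nonneg ‖ζ - E ζ‖)]
  obtain ⟨k, hks, hkkh, hkc⟩ := exists_inv_sqrt h hhsa hc hpos
  have hkM : k ∈ M := by
    refine mem_of_commutant M fun t ht => ?_
    exact hkc t (ht h hhM).symm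
  have hEk : E * k = k * E := hkc E hEh
  have hah : a * h = h * a := by
    rw [hh, mul_add, add_mul, mul_sub, sub_mul, mul_one, one_mul, mul_assoc a E a, ← haE]
  have hak : a * k = k * a := hkc a hah
  have hvv : star (x * k * E) * (x * k * E) = E := by
    have e1 : star (x * k * E) * (x * k * E) = E * (k * (a * (k * E))) := by
      rw [ha, star_mul, star_mul, hEs, hks]
      simp only [mul_assoc]
    have e2 : k * h = h * k := (hkc h rfl).symm
    calc star (x * k * E) * (x * k * E) = E * (k * (a * (k * E))) := e1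
      _ = E * (k * (k * (a * E))) := by rw [← mul_assoc a k E, hak, mul_assoc k a E]
      _ = E * (k * (k * (h * E))) := by rw [hhE]
      _ = E * (k * k * h * E) := by simp only [mul_assoc]
      _ = E := by rw [hkkh, one_mul, hEE]
  refine ⟨x * k * E, mul_mem (mul_mem hx hkM) hEM, ?_, ?_, ?_, ?_⟩
  · intro h0
    rw [h0, mul_zero] at hvv
    exact hE0 hvv.symm
  · rw [hvv]
    exact hE
  · intro e he
    rw [← mul_assoc, ← mul_assoc, he]
  · intro f hf hxf
    have hfs : star f = f := hf.isSelfAdjoint.star_eq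
    have haf : a * f = a := by rw [ha, mul_assoc, hxf]
    have hfa : f * a = a := by
      have h1 := congrArg star haf
      rwa [star_mul, hasa.star_eq, hfs] at h1
    have hfE : f * E = E * f := hEc f (by rw [hfa, haf])
    have hfE' : f * E = E := by
      refine ContinuousLinearMap.ext fun ζ => ?_
      rw [mul_app]
      have h1 : E (E ζ - f (E ζ)) = E ζ - f (E ζ) := by
        rw [map_sub, hEapp, ← mul_app E f, ← hfE, mul_app, hEapp]
      have h2 := hE1 _ h1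
      have h3 : a (E ζ - f (E ζ)) = 0 := by
        rw [map_sub, ← mul_app a f, haf, sub_self]
      rw [h3, inner_zero_right, Complex.zero_re] at h2
      have h4 : ‖E ζ - f (E ζ)‖ ^ 2 ≤ 0 := by
        by_contra hcon
        push Not at hcon
        have := mul_pos hs hcon
        linarith
      have h5 : ‖E ζ - f (E ζ)‖ = 0 := by
        have := sq_nonneg ‖E ζ - f (E ζ)‖
        exact pow_eq_zero_iff (two_ne_zero) |>.mp (le_antisymm h4 this)
      exact (sub_eq_zero.mp (norm_eq_zero.mp h5)).symm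
    rw [mul_assoc, ← hfE, hfE']

end Pool.Agent.H11.BCG
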