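import Pool.Agent.H85.BC.Targets
import Pool.Agent.H85.BC.Basic

/-!
# WC: weak limits of asymptotically commuting elements (`MP_0e7a83_an`)
-/

set_option autoImplicit false

open scoped InnerProductSpace Topology
open Filter

namespace Pool.Agent.H11.BCG

open Pool.Agent.H85.BC

variable {H : Type} [NormedAddCommGroup H] [InnerProductSpace ℂ H] [CompleteSpace H]

theorem pf_WC : T_WC H := by
  intro N ξ hξ ι U x hx z hz hw y hy hlim
  have h0 : ∀ η : H, (inner ℂ η ((z * y - y * z) ξ) : ℂ) = 0 := by
    intro η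
    have h1 := hw η (y ξ)
    have h2 := hw (star y η) ξ
    have h3 : Tendsto (fun i => (inner ℂ η ((x i * y - y * x i) ξ) : ℂ)) (U : Filter ι)
        (𝓝 (inner ℂ η ((z * y - y * z) ξ))) := by
      have h4 := h1.sub h2
      have h5 : ∀ t : H →L[ℂ] H, (inner ℂ η ((t * y - y * t) ξ) : ℂ) =
          inner ℂ η (t (y ξ)) - inner ℂ (star y η) (t ξ) := by
        intro t
        rw [inner_star_left]
        exact inner_sub_right _ _ _
      simp only [h5]
      exact h4
    have h6 : Tendsto (fun i => (inner ℂ η ((x i * y - y * x i) ξ) : ℂ)) (U : Filter ι)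
        (𝓝 0) := by
      refine squeeze_zero_norm (fun i => norm_inner_le_norm _ _) ?_
      have h7 := hlim.const_mul ‖η‖
      rwa [mul_zero] at h7
    exact tendsto_nhds_unique h3 h6
  have h1 : (z * y - y * z) ξ = 0 := inner_self_eq_zero.mp (h0 _)
  exact sub_eq_zero.mp (hξ.eq_zero (sub_mem (mul_mem hz hy) (mul_mem hy hz)) h1)

end Pool.Agent.H11.BCG
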